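import Mathlib
import Pool.Agent.TH562.TW.Count

/-! A sieve for values of binary forms at pairs in residue classes, with all constants explicit in
the modulus. -/

set_option autoImplicit false

namespace Pool.Agent.TH664.LN

open Finset Pool.Agent.TH562.TW

/-- the pairs `(i, l)` -/
def Box (I L : ℕ) : Finset (ℕ × ℕ) := Ico I (2 * I) ×ˢ Ico L (2 * L)

theorem mem_Box {I L : ℕ} {x : ℕ × ℕ} :
    x ∈ Box I L ↔ (I ≤ x.1 ∧ x.1 < 2 * I) ∧ (L ≤ x.2 ∧ x.2 < 2 * L) := by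
  unfold Box
  rw [Finset.mem_product, Finset.mem_Ico, Finset.mem_Ico]

theorem card_Box (I L : ℕ) : (Box I L).card = I * L := by
  unfold Box
  rw [Finset.card_product, Nat.card_Ico, Nat.card_Ico]
  congr 1 <;> omega

theorem ico_card {I d : ℕ} (hd : 0 < d) {T : Finset ℕ} (hT : T ⊆ Ico I (2 * I))
    (h : ∀ x ∈ T, ∀ y ∈ T, (d : ℤ) ∣ (x : ℤ) - y) : (T.card : ℝ) ≤ I / d + 1 := by
  have hd' : (0 : ℝ) < d := by exact_mod_cast hd
  refine card_spaced T (fun x : ℕ => (x : ℝ)) (a := I) (L := I) hd' (Nat.cast_nonneg I) ?_ ?_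
  · intro x hx
    obtain ⟨h1, h2⟩ := Finset.mem_Ico.1 (hT hx)
    refine ⟨by exact_mod_cast h1, ?_⟩
    have : (x : ℝ) ≤ 2 * I := by exact_mod_cast h2.le
    linarith
  · intro x hx y hy hne
    exact gap_of_dvd hne (h x hx y hy)

/-- the number of classes modulo `p ^ 2` of the points with `p ^ 2 ∣ G` is at most `κ` -/
def Col (G : ℤ → ℤ → ℤ) (κ p : ℕ) : Prop :=
  ∀ (T : Finset (ℕ × ℕ)) (s v : ℕ × ℕ → ℕ),
    (∀ x ∈ T, ((p ^ 2 : ℕ) : ℤ) ∣ G (s x) (v x) ∧ ¬ p ∣ v x) → ∀ R : ℝ,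
    (∀ T' ⊆ T, (∀ x ∈ T', ∀ y ∈ T', ((p ^ 2 : ℕ) : ℤ) ∣ (s x : ℤ) * v y - s y * v x) →
      (T'.card : ℝ) ≤ R) → (T.card : ℝ) ≤ κ * R

/-- good pairs -/
def Good {r : ℕ} (G : Fin r → ℤ → ℤ → ℤ) (Q Qh h0 : ℕ) (x : ℕ × ℕ) : Prop :=
  Nat.Coprime (1 + Q * x.1) (h0 + Qh * x.2) ∧ ∀ p : ℕ, p.Prime → ¬ p ∣ Q →
    ¬ p ^ 2 ∣ h0 + Qh * x.2 ∧
    ∀ j, ¬ ((p ^ 2 : ℕ) : ℤ) ∣ G j ((1 + Q * x.1 : ℕ) : ℤ) (((h0 + Qh * x.2) * Q ^ 2 : ℕ) : ℤ)

section

variable {r κ : ℕ} {G : Fin r → ℤ → ℤ → ℤ} {Q Qh h0 I L : ℕ}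

open Classical in
theorem t1_card (hQh : ∀ p : ℕ, p.Prime → p ∣ Qh → p ∣ Q) {p : ℕ} (hp : p.Prime) (hpQ : ¬ p ∣ Q) :
    (((Box I L).filter fun x => p ∣ 1 + Q * x.1 ∧ p ∣ h0 + Qh * x.2).card : ℝ) ≤
      (I / p + 1) * (L / p + 1) := by
  set A := (Ico I (2 * I)).filter fun i => p ∣ 1 + Q * i with hA
  set B := (Ico L (2 * L)).filter fun l => p ∣ h0 + Qh * l with hB
  have hpQh : ¬ p ∣ Qh := fun h => hpQ (hQh p hp h)
  have hsub : ((Box I L).filter fun x => p ∣ 1 + Q * x.1 ∧ p ∣ h0 + Qh * x.2) ⊆ A ×ˢ B := by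
    intro x hx
    obtain ⟨hx1, hx2, hx3⟩ := Finset.mem_filter.1 hx
    unfold Box at hx1
    obtain ⟨h1, h2⟩ := Finset.mem_product.1 hx1
    exact Finset.mem_product.2 ⟨Finset.mem_filter.2 ⟨h1, hx2⟩, Finset.mem_filter.2 ⟨h2, hx3⟩⟩
  have hAc : (A.card : ℝ) ≤ I / p + 1 := by
    refine ico_card hp.pos (Finset.filter_subset _ _) ?_
    intro x hx y hy
    have h1 := (Finset.mem_filter.1 hx).2
    have h2 := (Finset.mem_filter.1 hy).2
    have h3 : ((p ^ 1 : ℕ) : ℤ) ∣ (Q : ℤ) * ((x : ℤ) - y) := by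
      have e : (Q : ℤ) * ((x : ℤ) - y) = ((1 + Q * x : ℕ) : ℤ) - ((1 + Q * y : ℕ) : ℤ) := by
        push_cast; ring
      rw [e, pow_one]
      exact dvd_sub (Int.natCast_dvd_natCast.2 h1) (Int.natCast_dvd_natCast.2 h2)
    have h4 := cop_cancel hp hpQ h3
    rwa [pow_one] at h4
  have hBc : (B.card : ℝ) ≤ L / p + 1 := by
    refine ico_card hp.pos (Finset.filter_subset _ _) ?_
    intro x hx y hy
    have h1 := (Finset.mem_filter.1 hx).2
    have h2 := (Finset.mem_filter.1 hy).2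
    have h3 : ((p ^ 1 : ℕ) : ℤ) ∣ (Qh : ℤ) * ((x : ℤ) - y) := by
      have e : (Qh : ℤ) * ((x : ℤ) - y) = ((h0 + Qh * x : ℕ) : ℤ) - ((h0 + Qh * y : ℕ) : ℤ) := by
        push_cast; ring
      rw [e, pow_one]
      exact dvd_sub (Int.natCast_dvd_natCast.2 h1) (Int.natCast_dvd_natCast.2 h2)
    have h4 := cop_cancel hp hpQh h3
    rwa [pow_one] at h4
  have h1 : (((Box I L).filter fun x => p ∣ 1 + Q * x.1 ∧ p ∣ h0 + Qh * x.2).card : ℝ) ≤
      A.card * B.card := by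
    have := Finset.card_le_card hsub
    rw [Finset.card_product] at this
    exact_mod_cast this
  refine h1.trans ?_
  exact mul_le_mul hAc hBc (Nat.cast_nonneg _) (by positivity)

open Classical in
theorem t2_card (hQh : ∀ p : ℕ, p.Prime → p ∣ Qh → p ∣ Q) {p : ℕ} (hp : p.Prime) (hpQ : ¬ p ∣ Q) :
    (((Box I L).filter fun x => p ^ 2 ∣ h0 + Qh * x.2).card : ℝ) ≤ I * (L / p ^ 2 + 1) := by
  set B := (Ico L (2 * L)).filter fun l => p ^ 2 ∣ h0 + Qh * l with hB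
  have hpQh : ¬ p ∣ Qh := fun h => hpQ (hQh p hp h)
  have hsub : ((Box I L).filter fun x => p ^ 2 ∣ h0 + Qh * x.2) ⊆ Ico I (2 * I) ×ˢ B := by
    intro x hx
    obtain ⟨hx1, hx3⟩ := Finset.mem_filter.1 hx
    unfold Box at hx1
    obtain ⟨h1, h2⟩ := Finset.mem_product.1 hx1
    exact Finset.mem_product.2 ⟨h1, Finset.mem_filter.2 ⟨h2, hx3⟩⟩
  have hBc : (B.card : ℝ) ≤ L / p ^ 2 + 1 := by
    have := ico_card (I := L) (d := p ^ 2) (pow_pos hp.pos 2) (T := B)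
      (Finset.filter_subset _ _) (by
        intro x hx y hy
        have h1 := (Finset.mem_filter.1 hx).2
        have h2 := (Finset.mem_filter.1 hy).2
        have h3 : ((p ^ 2 : ℕ) : ℤ) ∣ (Qh : ℤ) * ((x : ℤ) - y) := by
          have e : (Qh : ℤ) * ((x : ℤ) - y) =
              ((h0 + Qh * x : ℕ) : ℤ) - ((h0 + Qh * y : ℕ) : ℤ) := by
            push_cast; ring
          rw [e]
          exact dvd_sub (Int.natCast_dvd_natCast.2 h1) (Int.natCast_dvd_natCast.2 h2)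
        exact cop_cancel hp hpQh h3)
    push_cast at this
    exact this
  have h1 : (((Box I L).filter fun x => p ^ 2 ∣ h0 + Qh * x.2).card : ℝ) ≤ I * B.card := by
    have := Finset.card_le_card hsub
    rw [Finset.card_product, Nat.card_Ico] at this
    have e : 2 * I - I = I := by omega
    rw [e] at this
    exact_mod_cast this
  refine h1.trans ?_
  exact mul_le_mul_of_nonneg_left hBc (Nat.cast_nonneg _)

/-- the points with `p ^ 2 ∣ G` -/
noncomputable def T3 (G : ℤ → ℤ → ℤ) (Q Qh h0 I L p : ℕ) : Finset (ℕ × ℕ) := by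
  classical exact (Box I L).filter fun x => Nat.Coprime (1 + Q * x.1) (h0 + Qh * x.2) ∧
    ((p ^ 2 : ℕ) : ℤ) ∣ G ((1 + Q * x.1 : ℕ) : ℤ) (((h0 + Qh * x.2) * Q ^ 2 : ℕ) : ℤ)

theorem mem_T3 {G : ℤ → ℤ → ℤ} {p : ℕ} {x : ℕ × ℕ} : x ∈ T3 G Q Qh h0 I L p ↔
    x ∈ Box I L ∧ Nat.Coprime (1 + Q * x.1) (h0 + Qh * x.2) ∧
    ((p ^ 2 : ℕ) : ℤ) ∣ G ((1 + Q * x.1 : ℕ) : ℤ) (((h0 + Qh * x.2) * Q ^ 2 : ℕ) : ℤ) := by
  classical
  unfold T3
  rw [Finset.mem_filter]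

/-- `G (s, v) ≡ c s ^ k` modulo `v` -/
def Lead (G : ℤ → ℤ → ℤ) : Prop := ∀ (p : ℕ) (s v : ℤ), p.Prime → (p : ℤ) ∣ G s v → (p : ℤ) ∣ v →
  (p : ℤ) ∣ s

theorem not_dvd_v {G : ℤ → ℤ → ℤ} (hl : Lead G) {p : ℕ} (hp : p.Prime) (hpQ : ¬ p ∣ Q) {x : ℕ × ℕ}
    (hx : x ∈ T3 G Q Qh h0 I L p) : ¬ p ∣ (h0 + Qh * x.2) * Q ^ 2 := by
  obtain ⟨_, hc, hd⟩ := mem_T3.1 hx
  intro hv
  have h1 : (p : ℤ) ∣ G ((1 + Q * x.1 : ℕ) : ℤ) (((h0 + Qh * x.2) * Q ^ 2 : ℕ) : ℤ) := by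
    refine dvd_trans ?_ hd
    push_cast
    exact dvd_pow_self _ two_ne_zero
  have h2 := hl p _ _ hp h1 (Int.natCast_dvd_natCast.2 hv)
  have h3 : p ∣ 1 + Q * x.1 := Int.natCast_dvd_natCast.1 h2
  have h4 : p ∣ h0 + Qh * x.2 := by
    rcases (Nat.Prime.dvd_mul hp).1 hv with h | h
    · exact h
    · exact absurd (hp.dvd_of_dvd_pow h) hpQ
  exact hp.one_lt.ne' (Nat.Coprime.eq_one_of_dvd (hc.coprime_dvd_left h3) h4)

theorem t3_card {G : ℤ → ℤ → ℤ} (hl : Lead G) {p : ℕ} (hp : p.Prime) (hpQ : ¬ p ∣ Q)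
    (hcol : Col G κ p) :
    ((T3 G Q Qh h0 I L p).card : ℝ) ≤ L * (κ * (I / p ^ 2 + 1)) := by
  classical
  have h1 := card_fib (T3 G Q Qh h0 I L p) (fun x => x.2) (κ * (I / p ^ 2 + 1)) (by
    intro l _
    refine hcol _ (fun x => 1 + Q * x.1) (fun x => (h0 + Qh * x.2) * Q ^ 2) ?_ _ ?_
    · intro x hx
      have hx1 := (Finset.mem_filter.1 hx).1
      exact ⟨(mem_T3.1 hx1).2.2, not_dvd_v hl hp hpQ hx1⟩
    · intro T' hT' hpair
      -- project to the first coordinate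
      have hinj : Set.InjOn (fun x : ℕ × ℕ => x.1) T' := by
        intro x hx y hy hxy
        have a1 := (Finset.mem_filter.1 (hT' hx)).2
        have a2 := (Finset.mem_filter.1 (hT' hy)).2
        exact Prod.ext hxy (a1.trans a2.symm)
      have hc : T'.card = (T'.image fun x : ℕ × ℕ => x.1).card :=
        (Finset.card_image_of_injOn hinj).symm
      rw [hc]
      have := ico_card (I := I) (d := p ^ 2) (pow_pos hp.pos 2)
        (T := T'.image fun x : ℕ × ℕ => x.1) (by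
          intro i hi
          obtain ⟨x, hx, rfl⟩ := Finset.mem_image.1 hi
          have := (mem_T3.1 (Finset.mem_filter.1 (hT' hx)).1).1
          rw [mem_Box] at this
          exact Finset.mem_Ico.2 this.1) (by
          intro i hi i' hi'
          obtain ⟨x, hx, rfl⟩ := Finset.mem_image.1 hi
          obtain ⟨y, hy, rfl⟩ := Finset.mem_image.1 hi'
          have a1 := (Finset.mem_filter.1 (hT' hx)).2
          have a2 := (Finset.mem_filter.1 (hT' hy)).2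
          have hv := not_dvd_v hl hp hpQ (Finset.mem_filter.1 (hT' hx)).1
          have h2 := hpair x hx y hy
          have e : (((1 + Q * x.1 : ℕ) : ℤ)) * (((h0 + Qh * y.2) * Q ^ 2 : ℕ) : ℤ) -
              ((1 + Q * y.1 : ℕ) : ℤ) * (((h0 + Qh * x.2) * Q ^ 2 : ℕ) : ℤ) =
              (((h0 + Qh * x.2) * Q ^ 2 : ℕ) : ℤ) * ((Q : ℤ) * ((x.1 : ℤ) - y.1)) := by
            rw [a1, a2]; push_cast; ring
          rw [e] at h2
          exact cop_cancel hp hpQ (cop_cancel hp hv h2))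
      push_cast at this
      exact this)
  refine h1.trans ?_
  have h2 : (((T3 G Q Qh h0 I L p).image fun x => x.2).card : ℝ) ≤ L := by
    have : ((T3 G Q Qh h0 I L p).image fun x => x.2).card ≤ (Ico L (2 * L)).card := by
      apply Finset.card_le_card
      intro k hk
      obtain ⟨x, hx, rfl⟩ := Finset.mem_image.1 hk
      have := (mem_T3.1 hx).1
      rw [mem_Box] at this
      exact Finset.mem_Ico.2 this.2
    rw [Nat.card_Ico] at this
    have e : 2 * L - L = L := by omega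
    rw [e] at this
    exact_mod_cast this
  exact mul_le_mul_of_nonneg_right h2 (by positivity)

theorem t4_card {G : ℤ → ℤ → ℤ} (hl : Lead G) {p P : ℕ} (hp : p.Prime) (hpQ : ¬ p ∣ Q)
    (hcol : Col G κ p) (hP : (1 + Q * (2 * I)) * (h0 + Qh * (2 * L)) ≤ P ^ 2) (hPp : P < p)
    (hh : 0 < L) (hQh0 : 0 < Qh) :
    ((T3 G Q Qh h0 I L p).card : ℝ) ≤ κ := by
  have h := hcol (T3 G Q Qh h0 I L p) (fun x => 1 + Q * x.1) (fun x => (h0 + Qh * x.2) * Q ^ 2)
    (fun x hx => ⟨(mem_T3.1 hx).2.2, not_dvd_v hl hp hpQ hx⟩) 1 ?_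
  · simpa using h
  · intro T' hT' hpair
    have h1 : T'.card ≤ 1 := by
      rw [Finset.card_le_one]
      intro x hx y hy
      obtain ⟨bx, cx, _⟩ := mem_T3.1 (hT' hx)
      obtain ⟨by', cy, _⟩ := mem_T3.1 (hT' hy)
      rw [mem_Box] at bx by'
      have h2 := hpair x hx y hy
      set sx : ℕ := 1 + Q * x.1 with hsx
      set sy : ℕ := 1 + Q * y.1 with hsy
      set hx' : ℕ := h0 + Qh * x.2 with hhx
      set hy' : ℕ := h0 + Qh * y.2 with hhy
      have e : (sx : ℤ) * ((hy' * Q ^ 2 : ℕ) : ℤ) - (sy : ℤ) * ((hx' * Q ^ 2 : ℕ) : ℤ) =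
          ((Q ^ 2 : ℕ) : ℤ) * ((sx : ℤ) * hy' - sy * hx') := by
        push_cast; ring
      rw [e] at h2
      have hpQ2 : ¬ p ∣ Q ^ 2 := fun h => hpQ (hp.dvd_of_dvd_pow h)
      have h3 := cop_cancel hp hpQ2 h2
      have bound : ∀ {s h : ℕ}, s ≤ 1 + Q * (2 * I) → h ≤ h0 + Qh * (2 * L) →
          ((s * h : ℕ) : ℤ) < ((p ^ 2 : ℕ) : ℤ) := by
        intro s h h1 h2
        have h4 : s * h ≤ P ^ 2 := (Nat.mul_le_mul h1 h2).trans hP
        have h5 : P ^ 2 < p ^ 2 := Nat.pow_lt_pow_left hPp two_ne_zero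
        exact_mod_cast lt_of_le_of_lt h4 h5
      have bsx : sx ≤ 1 + Q * (2 * I) := by
        rw [hsx]; exact Nat.add_le_add_left (Nat.mul_le_mul_left _ bx.1.2.le) _
      have bsy : sy ≤ 1 + Q * (2 * I) := by
        rw [hsy]; exact Nat.add_le_add_left (Nat.mul_le_mul_left _ by'.1.2.le) _
      have bhx : hx' ≤ h0 + Qh * (2 * L) := by
        rw [hhx]; exact Nat.add_le_add_left (Nat.mul_le_mul_left _ bx.2.2.le) _
      have bhy : hy' ≤ h0 + Qh * (2 * L) := by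
        rw [hhy]; exact Nat.add_le_add_left (Nat.mul_le_mul_left _ by'.2.2.le) _
      have g1 := bound bsx bhy
      have g2 := bound bsy bhx
      have h4 : (sx : ℤ) * hy' - sy * hx' = 0 := by
        apply Int.eq_zero_of_abs_lt_dvd h3
        rw [abs_lt]
        push_cast at g1 g2 ⊢
        have p1 : (0 : ℤ) ≤ (sx : ℤ) * hy' := by positivity
        have p2 : (0 : ℤ) ≤ (sy : ℤ) * hx' := by positivity
        constructor <;> linarith
      have h5 : sx * hy' = sy * hx' := by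
        have : (sx : ℤ) * hy' = sy * hx' := by linarith
        exact_mod_cast this
      have hhx0 : 0 < hx' := by
        have : 0 < Qh * x.2 := Nat.mul_pos hQh0 (by omega)
        omega
      have hhy0 : 0 < hy' := by
        have : 0 < Qh * y.2 := Nat.mul_pos hQh0 (by omega)
        omega
      have d1 : hx' ∣ hy' := by
        have : hx' ∣ sx * hy' := by rw [h5]; exact dvd_mul_left _ _
        exact (Nat.Coprime.symm cx).dvd_of_dvd_mul_left this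
      have d2 : hy' ∣ hx' := by
        have : hy' ∣ sy * hx' := by rw [← h5]; exact dvd_mul_left _ _
        exact (Nat.Coprime.symm cy).dvd_of_dvd_mul_left this
      have e1 : hx' = hy' := Nat.dvd_antisymm d1 d2
      have e2 : sx = sy := by
        rw [e1] at h5
        exact Nat.eq_of_mul_eq_mul_right hhy0 h5
      apply Prod.ext
      · rcases Nat.eq_zero_or_pos Q with h0' | hQpos
        · exfalso
          exact hpQ (by rw [h0']; exact dvd_zero _)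
        · rw [hsx, hsy] at e2
          exact Nat.eq_of_mul_eq_mul_left hQpos (by omega)
      · rw [hhx, hhy] at e1
        exact Nat.eq_of_mul_eq_mul_left hQh0 (by omega)
    exact_mod_cast h1

open Classical in
theorem exists_good (hQh0 : 0 < Qh) (hQh : ∀ p : ℕ, p.Prime → p ∣ Qh → p ∣ Q) (hL : 0 < L)
    {z0 : ℕ} (hz : 1 ≤ z0) (hz0 : ∀ p : ℕ, p.Prime → p ≤ z0 → p ∣ Q)
    (hlead : ∀ j, Lead (G j)) (hcol : ∀ j (p : ℕ), p.Prime → ¬ p ∣ Q → Col (G j) κ p)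
    {P X1 X2 X4 : ℕ} (hX1 : h0 + Qh * (2 * L) ≤ X1) (hX2 : h0 + Qh * (2 * L) < (X2 + 1) ^ 2)
    (hP : (1 + Q * (2 * I)) * (h0 + Qh * (2 * L)) ≤ P ^ 2)
    (hX4 : ∀ x ∈ Box I L, ∀ j,
      0 < G j ((1 + Q * x.1 : ℕ) : ℤ) (((h0 + Qh * x.2) * Q ^ 2 : ℕ) : ℤ) ∧
      G j ((1 + Q * x.1 : ℕ) : ℤ) (((h0 + Qh * x.2) * Q ^ 2 : ℕ) : ℤ) < ((X4 + 1) ^ 2 : ℕ))
    (hmain : ((I : ℝ) * L / z0 + ((I : ℝ) + L) * (1 + Real.log X1) + X1) +
      ((I : ℝ) * L / z0 + I * X2) + r * (κ * ((I : ℝ) * L / z0 + L * P)) + r * (κ * (X4 : ℝ)) <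
      (I : ℝ) * L) :
    ∃ x ∈ Box I L, Good G Q Qh h0 x := by
  by_contra hcon
  push Not at hcon
  have hz' : (0 : ℝ) < z0 := by exact_mod_cast hz
  set Pq : ℕ → ℕ → Finset ℕ := fun a b => (Pr a b).filter fun p => ¬ p ∣ Q with hPq
  have memPq : ∀ {a b p : ℕ}, p ∈ Pq a b ↔ ((a < p ∧ p ≤ b) ∧ p.Prime) ∧ ¬ p ∣ Q := by
    intro a b p
    rw [hPq]
    simp only [Finset.mem_filter, mem_Pr]
  set T1 : ℕ → Finset (ℕ × ℕ) := fun p => (Box I L).filter fun x => p ∣ 1 + Q * x.1 ∧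
    p ∣ h0 + Qh * x.2 with hT1
  set T2 : ℕ → Finset (ℕ × ℕ) := fun p => (Box I L).filter fun x => p ^ 2 ∣ h0 + Qh * x.2 with hT2
  have hsub : Box I L ⊆ (((Pq z0 X1).biUnion T1 ∪ (Pq z0 X2).biUnion T2) ∪
      (Finset.univ : Finset (Fin r)).biUnion fun j => (Pq z0 P).biUnion
        fun p => T3 (G j) Q Qh h0 I L p) ∪
      (Finset.univ : Finset (Fin r)).biUnion fun j => (Pq P X4).biUnion
        fun p => T3 (G j) Q Qh h0 I L p := by
    intro x hx
    have hbad := hcon x hx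
    have hxB := mem_Box.1 hx
    have hhpos : 0 < h0 + Qh * x.2 := by
      have : 0 < Qh * x.2 := Nat.mul_pos hQh0 (by omega)
      omega
    have hhle : h0 + Qh * x.2 ≤ h0 + Qh * (2 * L) :=
      Nat.add_le_add_left (Nat.mul_le_mul_left _ hxB.2.2.le) _
    by_cases hcop : Nat.Coprime (1 + Q * x.1) (h0 + Qh * x.2)
    · unfold Good at hbad
      push Not at hbad
      obtain ⟨p, hp, hpQ, hpd⟩ := hbad hcop
      have hpz : z0 < p := by
        by_contra h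
        exact hpQ (hz0 p hp (by omega))
      by_cases hpv : p ^ 2 ∣ h0 + Qh * x.2
      · refine Finset.mem_union_left _ (Finset.mem_union_left _ (Finset.mem_union_right _ ?_))
        refine Finset.mem_biUnion.2 ⟨p, memPq.2 ⟨⟨⟨hpz, ?_⟩, hp⟩, hpQ⟩,
          Finset.mem_filter.2 ⟨hx, hpv⟩⟩
        have h1 := Nat.le_of_dvd hhpos hpv
        have h3 : p ^ 2 < (X2 + 1) ^ 2 := by omega
        have h4 : p < X2 + 1 := lt_of_pow_lt_pow_left₀ 2 (by omega) h3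
        omega
      · obtain ⟨j, hj⟩ := hpd hpv
        have hmem : x ∈ T3 (G j) Q Qh h0 I L p := mem_T3.2 ⟨hx, hcop, hj⟩
        rcases le_or_gt p P with hpP | hpP
        · refine Finset.mem_union_left _ (Finset.mem_union_right _ ?_)
          exact Finset.mem_biUnion.2 ⟨j, Finset.mem_univ _, Finset.mem_biUnion.2
            ⟨p, memPq.2 ⟨⟨⟨hpz, hpP⟩, hp⟩, hpQ⟩, hmem⟩⟩
        · refine Finset.mem_union_right _ ?_
          refine Finset.mem_biUnion.2 ⟨j, Finset.mem_univ _, Finset.mem_biUnion.2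
            ⟨p, memPq.2 ⟨⟨⟨hpP, ?_⟩, hp⟩, hpQ⟩, hmem⟩⟩
          obtain ⟨h1, h2⟩ := hX4 x hx j
          have h3 := Int.le_of_dvd h1 hj
          have h4 : ((p ^ 2 : ℕ) : ℤ) < ((X4 + 1) ^ 2 : ℕ) := lt_of_le_of_lt h3 h2
          have h5 : p ^ 2 < (X4 + 1) ^ 2 := by exact_mod_cast h4
          have h6 : p < X4 + 1 := lt_of_pow_lt_pow_left₀ 2 (by omega) h5
          omega
    · refine Finset.mem_union_left _ (Finset.mem_union_left _ (Finset.mem_union_left _ ?_))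
      obtain ⟨p, hp, h1, h2⟩ := Nat.Prime.not_coprime_iff_dvd.1 hcop
      have hpQ : ¬ p ∣ Q := by
        intro h
        have h3 : p ∣ Q * x.1 := Dvd.dvd.mul_right h _
        have h4 : p ∣ 1 := (Nat.dvd_add_left h3).1 h1
        exact hp.one_lt.ne' (Nat.dvd_one.1 h4)
      have hpz : z0 < p := by
        by_contra h
        exact hpQ (hz0 p hp (by omega))
      refine Finset.mem_biUnion.2 ⟨p, memPq.2 ⟨⟨⟨hpz, ?_⟩, hp⟩, hpQ⟩,
        Finset.mem_filter.2 ⟨hx, h1, h2⟩⟩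
      have := Nat.le_of_dvd hhpos h2
      omega
  have hcardPq : ∀ a b : ℕ, ((Pq a b).card : ℝ) ≤ b := by
    intro a b
    have h1 : (Pq a b).card ≤ (Ioc 0 b).card := by
      apply Finset.card_le_card
      intro p hp
      have := memPq.1 hp
      exact Finset.mem_Ioc.2 ⟨by omega, this.1.1.2⟩
    rw [Nat.card_Ioc, Nat.sub_zero] at h1
    exact_mod_cast h1
  have hsqPq : ∀ b : ℕ, ∑ p ∈ Pq z0 b, 1 / ((p : ℝ) ^ 2) ≤ 1 / (z0 : ℝ) := by
    intro b
    refine le_trans (Finset.sum_le_sum_of_subset_of_nonneg (Finset.filter_subset _ _) ?_)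
      (Pr_sq z0 b hz)
    intro _ _ _; positivity
  have hinvPq : ∀ b : ℕ, ∑ p ∈ Pq z0 b, 1 / (p : ℝ) ≤ 1 + Real.log b := by
    intro b
    refine le_trans (Finset.sum_le_sum_of_subset_of_nonneg (Finset.filter_subset _ _) ?_)
      (Pr_inv z0 b hz)
    intro _ _ _; positivity
  -- the four sums
  have s1 : (((Pq z0 X1).biUnion T1).card : ℝ) ≤
      (I : ℝ) * L / z0 + ((I : ℝ) + L) * (1 + Real.log X1) + X1 := by
    have h1 : (((Pq z0 X1).biUnion T1).card : ℝ) ≤ ∑ p ∈ Pq z0 X1, ((T1 p).card : ℝ) := by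
      exact_mod_cast (Finset.card_biUnion_le : ((Pq z0 X1).biUnion T1).card ≤ _)
    have h2 : ∑ p ∈ Pq z0 X1, ((T1 p).card : ℝ) ≤ ∑ p ∈ Pq z0 X1,
        ((I : ℝ) * L * (1 / (p : ℝ) ^ 2) + ((I : ℝ) + L) * (1 / (p : ℝ)) + 1) := by
      apply Finset.sum_le_sum
      intro p hp
      have hp' := memPq.1 hp
      refine (t1_card hQh hp'.1.2 hp'.2).trans (le_of_eq ?_)
      have hp0 : (p : ℝ) ≠ 0 := by exact_mod_cast hp'.1.2.ne_zero
      field_simp
      ring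
    have h3 : ∑ p ∈ Pq z0 X1, ((I : ℝ) * L * (1 / (p : ℝ) ^ 2) + ((I : ℝ) + L) * (1 / (p : ℝ)) + 1) =
        (I : ℝ) * L * ∑ p ∈ Pq z0 X1, 1 / (p : ℝ) ^ 2 + ((I : ℝ) + L) * ∑ p ∈ Pq z0 X1, 1 / (p : ℝ) +
        (Pq z0 X1).card := by
      rw [Finset.sum_add_distrib, Finset.sum_add_distrib, ← Finset.mul_sum, ← Finset.mul_sum,
        Finset.sum_const, nsmul_eq_mul, mul_one]
    have h4 := mul_le_mul_of_nonneg_left (hsqPq X1) (by positivity : (0 : ℝ) ≤ (I : ℝ) * L)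
    have h5 := mul_le_mul_of_nonneg_left (hinvPq X1) (by positivity : (0 : ℝ) ≤ (I : ℝ) + L)
    have h6 := hcardPq z0 X1
    have h7 : (I : ℝ) * L * (1 / (z0 : ℝ)) = (I : ℝ) * L / z0 := by ring
    rw [h7] at h4
    linarith
  have s2 : (((Pq z0 X2).biUnion T2).card : ℝ) ≤ (I : ℝ) * L / z0 + I * X2 := by
    have h1 : (((Pq z0 X2).biUnion T2).card : ℝ) ≤ ∑ p ∈ Pq z0 X2, ((T2 p).card : ℝ) := by
      exact_mod_cast (Finset.card_biUnion_le : ((Pq z0 X2).biUnion T2).card ≤ _)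
    have h2 : ∑ p ∈ Pq z0 X2, ((T2 p).card : ℝ) ≤ ∑ p ∈ Pq z0 X2,
        ((I : ℝ) * L * (1 / (p : ℝ) ^ 2) + I) := by
      apply Finset.sum_le_sum
      intro p hp
      have hp' := memPq.1 hp
      refine (t2_card hQh hp'.1.2 hp'.2).trans (le_of_eq ?_)
      ring
    have h3 : ∑ p ∈ Pq z0 X2, ((I : ℝ) * L * (1 / (p : ℝ) ^ 2) + I) =
        (I : ℝ) * L * ∑ p ∈ Pq z0 X2, 1 / (p : ℝ) ^ 2 + (Pq z0 X2).card * I := by
      rw [Finset.sum_add_distrib, ← Finset.mul_sum, Finset.sum_const, nsmul_eq_mul]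
    have h4 := mul_le_mul_of_nonneg_left (hsqPq X2) (by positivity : (0 : ℝ) ≤ (I : ℝ) * L)
    have h6 := mul_le_mul_of_nonneg_right (hcardPq z0 X2) (Nat.cast_nonneg I : (0 : ℝ) ≤ (I : ℝ))
    have h7 : (I : ℝ) * L * (1 / (z0 : ℝ)) = (I : ℝ) * L / z0 := by ring
    rw [h7] at h4
    linarith
  have s3 : ∀ j : Fin r, ((((Pq z0 P).biUnion fun p => T3 (G j) Q Qh h0 I L p)).card : ℝ) ≤
      κ * ((I : ℝ) * L / z0 + L * P) := by
    intro j
    have h1 : ((((Pq z0 P).biUnion fun p => T3 (G j) Q Qh h0 I L p)).card : ℝ) ≤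
        ∑ p ∈ Pq z0 P, ((T3 (G j) Q Qh h0 I L p).card : ℝ) := by
      exact_mod_cast (Finset.card_biUnion_le :
        ((Pq z0 P).biUnion fun p => T3 (G j) Q Qh h0 I L p).card ≤ _)
    have h2 : ∑ p ∈ Pq z0 P, ((T3 (G j) Q Qh h0 I L p).card : ℝ) ≤ ∑ p ∈ Pq z0 P,
        (κ * ((I : ℝ) * L) * (1 / (p : ℝ) ^ 2) + κ * L) := by
      apply Finset.sum_le_sum
      intro p hp
      have hp' := memPq.1 hp
      refine (t3_card (hlead j) hp'.1.2 hp'.2 (hcol j p hp'.1.2 hp'.2)).trans (le_of_eq ?_)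
      ring
    have h3 : ∑ p ∈ Pq z0 P, (κ * ((I : ℝ) * L) * (1 / (p : ℝ) ^ 2) + κ * L) =
        κ * ((I : ℝ) * L) * ∑ p ∈ Pq z0 P, 1 / (p : ℝ) ^ 2 + (Pq z0 P).card * (κ * L) := by
      rw [Finset.sum_add_distrib, ← Finset.mul_sum, Finset.sum_const, nsmul_eq_mul]
    have h4 := mul_le_mul_of_nonneg_left (hsqPq P)
      (by positivity : (0 : ℝ) ≤ κ * ((I : ℝ) * L))
    have h6 := mul_le_mul_of_nonneg_right (hcardPq z0 P) (by positivity : (0 : ℝ) ≤ (κ : ℝ) * L)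
    have h7 : κ * ((I : ℝ) * L) * (1 / (z0 : ℝ)) = κ * ((I : ℝ) * L / z0) := by ring
    rw [h7] at h4
    have h8 : (κ : ℝ) * ((I : ℝ) * L / z0 + L * P) = κ * ((I : ℝ) * L / z0) + P * (κ * L) := by ring
    linarith
  have s4 : ∀ j : Fin r, ((((Pq P X4).biUnion fun p => T3 (G j) Q Qh h0 I L p)).card : ℝ) ≤
      κ * (X4 : ℝ) := by
    intro j
    have h1 : ((((Pq P X4).biUnion fun p => T3 (G j) Q Qh h0 I L p)).card : ℝ) ≤
        ∑ p ∈ Pq P X4, ((T3 (G j) Q Qh h0 I L p).card : ℝ) := by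
      exact_mod_cast (Finset.card_biUnion_le :
        ((Pq P X4).biUnion fun p => T3 (G j) Q Qh h0 I L p).card ≤ _)
    have h2 : ∑ p ∈ Pq P X4, ((T3 (G j) Q Qh h0 I L p).card : ℝ) ≤ ∑ p ∈ Pq P X4, (κ : ℝ) := by
      apply Finset.sum_le_sum
      intro p hp
      have hp' := memPq.1 hp
      exact t4_card (hlead j) hp'.1.2 hp'.2 (hcol j p hp'.1.2 hp'.2) hP hp'.1.1.1 hL hQh0
    rw [Finset.sum_const, nsmul_eq_mul] at h2
    have h6 := mul_le_mul_of_nonneg_right (hcardPq P X4) (Nat.cast_nonneg κ : (0 : ℝ) ≤ (κ : ℝ))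
    linarith
  -- total
  have htot := Finset.card_le_card hsub
  have hB : ((Box I L).card : ℝ) = (I : ℝ) * L := by
    rw [card_Box]; push_cast; ring
  have u1 : ((Box I L).card : ℝ) ≤ (((Pq z0 X1).biUnion T1).card : ℝ) +
      (((Pq z0 X2).biUnion T2).card : ℝ) +
      (((Finset.univ : Finset (Fin r)).biUnion fun j => (Pq z0 P).biUnion
        fun p => T3 (G j) Q Qh h0 I L p).card : ℝ) +
      (((Finset.univ : Finset (Fin r)).biUnion fun j => (Pq P X4).biUnion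
        fun p => T3 (G j) Q Qh h0 I L p).card : ℝ) := by
    have := htot.trans ((Finset.card_union_le _ _).trans (Nat.add_le_add_right
      ((Finset.card_union_le _ _).trans (Nat.add_le_add_right (Finset.card_union_le _ _) _)) _))
    exact_mod_cast this
  have u3 : (((Finset.univ : Finset (Fin r)).biUnion fun j => (Pq z0 P).biUnion
        fun p => T3 (G j) Q Qh h0 I L p).card : ℝ) ≤ r * (κ * ((I : ℝ) * L / z0 + L * P)) := by
    have h1 : (((Finset.univ : Finset (Fin r)).biUnion fun j => (Pq z0 P).biUnion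
        fun p => T3 (G j) Q Qh h0 I L p).card : ℝ) ≤ ∑ j : Fin r,
        ((((Pq z0 P).biUnion fun p => T3 (G j) Q Qh h0 I L p)).card : ℝ) := by
      exact_mod_cast (Finset.card_biUnion_le : ((Finset.univ : Finset (Fin r)).biUnion
        fun j => (Pq z0 P).biUnion fun p => T3 (G j) Q Qh h0 I L p).card ≤ _)
    refine h1.trans ((Finset.sum_le_sum fun j _ => s3 j).trans ?_)
    rw [Finset.sum_const, nsmul_eq_mul, Finset.card_univ, Fintype.card_fin]
  have u4 : (((Finset.univ : Finset (Fin r)).biUnion fun j => (Pq P X4).biUnion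
        fun p => T3 (G j) Q Qh h0 I L p).card : ℝ) ≤ r * (κ * (X4 : ℝ)) := by
    have h1 : (((Finset.univ : Finset (Fin r)).biUnion fun j => (Pq P X4).biUnion
        fun p => T3 (G j) Q Qh h0 I L p).card : ℝ) ≤ ∑ j : Fin r,
        ((((Pq P X4).biUnion fun p => T3 (G j) Q Qh h0 I L p)).card : ℝ) := by
      exact_mod_cast (Finset.card_biUnion_le : ((Finset.univ : Finset (Fin r)).biUnion
        fun j => (Pq P X4).biUnion fun p => T3 (G j) Q Qh h0 I L p).card ≤ _)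
    refine h1.trans ((Finset.sum_le_sum fun j _ => s4 j).trans ?_)
    rw [Finset.sum_const, nsmul_eq_mul, Finset.card_univ, Fintype.card_fin]
  rw [hB] at u1
  linarith

end

end Pool.Agent.TH664.LN
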